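import Pool.Agent.Helper3.SP.Defs2

/-!
# Block U: the ultrafilter in the fine order, labels
-/

namespace Pool.Agent.Helper3.SP

open Cardinal Set

set_option linter.unusedSectionVars false

variable {A L : Type} [LinearOrder A] [LinearOrder L]

namespace Lab

theorem frIn_mono {P : Type} [Preorder P] {a : A → Set P} {p q : P} {b : A} (hqp : q ≤ p)
    (h : FrIn a p b) : FrIn a q b := fun r hr => h r (hr.trans hqp)

theorem frIn_of_mem {P : Type} [Preorder P] {a : A → Set P} {p : P} {b : A} (h : p ∈ a b) :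
    FrIn a p b := fun r hr => ⟨r, le_rfl, p, h, hr⟩

end Lab

open Lab

theorem U_unb (h : Hyp A L) {P : Type} [Preorder P] {U : P → (A → Set P) → Prop} (hU : IsU P U)
    {p : P} {a : A → Set P} (hp : U p a) (c : A) : ∃ q ≤ p, ∃ b, c < b ∧ FrIn a q b := by
  by_contra hcon
  have hneg : ∀ q ≤ p, ∀ b, c < b → ¬ FrIn a q b := fun q hq b hb hf =>
    hcon ⟨q, hq, b, hb, hf⟩
  let co : A → A → Set P := fun b₀ b => {r | ∀ s ≤ r, ¬ FrIn (fun b => {_r | b = b₀}) s b}
  have hco : ∀ b₀, U p (co b₀) := by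
    intro b₀
    refine hU.dense p _ fun q hq => ?_
    obtain ⟨r, hr, h1 | h1⟩ := hU.ultra q (fun b => {_r | b = b₀})
    · exact absurd h1 (hU.nonpr r b₀)
    · exact ⟨r, hr, h1⟩
  let a' : Option (Iic c) → A → Set P := fun i => i.elim a (fun b₀ => co b₀.1)
  have hcard : #(Option (Iic c)) < #A := by
    have h1 : #(Iic c) < #A := by
      obtain ⟨m, hm⟩ := h.bddA {c} (by
        rw [mk_singleton]
        exact lt_trans one_lt_aleph0 h.unc)
      refine lt_of_le_of_lt (mk_le_mk_of_subset ?_) (h.segA m)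
      intro x hx
      exact lt_of_le_of_lt hx (hm c rfl)
    rw [mk_option]
    exact add_lt_of_lt h.unc.le h1 (lt_trans one_lt_aleph0 h.unc)
  have h1 := hU.inter p (Option (Iic c)) a' hcard (by
    rintro (_ | b₀)
    · exact hp
    · exact hco b₀.1)
  refine hU.nonpr p c (hU.up p _ _ h1 ?_)
  intro q hq b hb
  exfalso
  obtain ⟨r, hr, d, hd, hrd⟩ := hb q le_rfl
  have hrp : r ≤ p := hr.trans hq
  have h2 : FrIn a r b := frIn_mono hrd (hd none)
  have hbc : b ≤ c := not_lt.1 fun h3 => hneg r hrp b h3 h2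
  have h3 : FrIn (co b) r b := frIn_mono hrd (hd (some ⟨b, hbc⟩))
  obtain ⟨s, hs, e, he, hse⟩ := h3 r le_rfl
  exact he e le_rfl (frIn_of_mem (a := fun b' => {_r : P | b' = b}) rfl)

namespace Lab

/-- a fine condition as a coarse condition -/
def toC (r : PF A L) : PC A L := ⟨r.1, r.2⟩

/-- a coarse condition as a fine condition -/
def toF (r : PC A L) : PF A L := ⟨r.1, r.2⟩

/-- the lift of a coarse extension -/
def liftF (r p : PC A L) : PF A L := ⟨lift r.1 p.1, Sm_lift r.2⟩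

theorem liftF_le {r : PC A L} {p : PF A L} (h : r ≤ toC p) : liftF r (toC p) ≤ p := lift_leF h

theorem toC_liftF_le {r p : PC A L} (h : r ≤ p) : toC (liftF r p) ≤ r := lift_leC h

theorem le_toC_liftF {r p : PC A L} (h : r ≤ p) : r ≤ toC (liftF r p) := leC_lift h

theorem toC_mono {r p : PF A L} (h : r ≤ p) : toC r ≤ toC p := LeF.leC h

theorem Col_mono {F : L → A → Set (PC A L)} {i : Bool} {l : L} {b : A} {q p : PC A L}
    (hqp : q ≤ p) (h : p ∈ Col F i l b) : q ∈ Col F i l b := by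
  cases i with
  | true => exact frIn_mono hqp h
  | false => exact fun r hr => h r (hr.trans hqp)

/-- the name of the set of the colour `i` in the fine poset -/
def ColF (F : L → A → Set (PC A L)) (i : Bool) (l : L) (b : A) : Set (PF A L) :=
  {r : PF A L | (⟨r.1, r.2⟩ : PC A L) ∈ Col F i l b}

/-- the colours are regular open -/
theorem Col_of_FrIn {F : L → A → Set (PC A L)} {i : Bool} {l : L} {b : A} {r : PF A L}
    (h : FrIn (ColF F i l) r b) : toC r ∈ Col F i l b := by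
  cases i with
  | true =>
    intro q hq
    obtain ⟨s, hs, e, he, hse⟩ := h (liftF q (toC r)) (liftF_le hq)
    have h1 : toC s ∈ Col F true l b := Col_mono (toC_mono hse) he
    obtain ⟨s', hs', e', he', hs'e'⟩ := h1 (toC s) le_rfl
    exact ⟨s', hs'.trans ((toC_mono hs).trans (toC_liftF_le hq)), e', he', hs'e'⟩
  | false =>
    intro q hq hf
    obtain ⟨s, hs, e, he, hse⟩ := h (liftF q (toC r)) (liftF_le hq)
    have h1 : toC s ∈ Col F false l b := Col_mono (toC_mono hse) he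
    exact h1 (toC s) le_rfl (frIn_mono ((toC_mono hs).trans (toC_liftF_le hq)) hf)

theorem InI_mono {U : PF A L → (A → Set (PF A L)) → Prop} {F : L → A → Set (PC A L)} {i : Bool}
    {m : A} {u : Set A} {l : L} {q p : PC A L} (hqp : q ≤ p) (h : p ∈ InI U F i m u l) :
    q ∈ InI U F i m u l := by
  obtain ⟨t, ht, h1⟩ := h
  exact ⟨t, hqp.trans ht, h1⟩

end Lab

theorem InI_dense {U : PF A L → (A → Set (PF A L)) → Prop} (hU : IsU _ U)
    (F : L → A → Set (PC A L)) (l : L) (q : PC A L) :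
    ∃ r ≤ q, ∃ i m u, r ∈ InI U F i m u l := by
  obtain ⟨p, hp, h1 | h1⟩ := hU.ultra (toF q) (ColF F true l)
  · exact ⟨toC p, toC_mono hp, true, p.1.len, p.1.x, toC p, le_rfl, rfl, fun _ _ => Iff.rfl, h1⟩
  · refine ⟨toC p, toC_mono hp, false, p.1.len, p.1.x, toC p, le_rfl, rfl, fun _ _ => Iff.rfl, ?_⟩
    refine hU.up p _ (ColF F false l) h1 ?_
    intro s _ b hb s' hs'
    obtain ⟨t, ht, e, he, hte⟩ := hb s' hs'
    refine ⟨t, ht, e, ?_, hte⟩
    intro w hw hf
    refine he (liftF w (toC e)) (liftF_le hw) ?_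
    refine fun z hz => ⟨z, le_rfl, z, ?_, le_rfl⟩
    exact frIn_mono ((toC_mono hz).trans (toC_liftF_le hw)) hf

theorem InI_ip (h : Hyp A L) (hdist : ∀ (I : Type), #I < #A → ∀ (D : I → Set (PC A L)),
      (∀ i p, ∃ q ≤ p, q ∈ D i) → (∀ i p q, q ≤ p → p ∈ D i → q ∈ D i) → ∀ p, ∃ q ≤ p, ∀ i, q ∈ D i)
    {U : PF A L → (A → Set (PF A L)) → Prop} (hU : IsU _ U)
    (F : L → A → Set (PC A L)) (i : Bool) (m : A) (u : Set A) (q : PC A L) (K : Set L)
    (hK : #K < #A) (c : A) : ∃ r ≤ q, ∃ b, c < b ∧ ∀ l ∈ K, ∀ s ≤ r, s ∈ InI U F i m u l →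
      s ∈ Col F i l b := by
  obtain ⟨q₁, hq₁, hD⟩ := hdist K hK
    (fun l => {q | q ∈ InI U F i m u l ∨ ∀ s ≤ q, s ∉ InI U F i m u l})
    (fun l p => by
      by_cases h1 : ∃ s ≤ p, s ∈ InI U F i m u l
      · obtain ⟨s, hs, h2⟩ := h1
        exact ⟨s, hs, Or.inl h2⟩
      · push Not at h1
        exact ⟨p, le_rfl, Or.inr h1⟩)
    (fun l p s hs h1 => by
      rcases h1 with h1 | h1
      · exact Or.inl (InI_mono hs h1)
      · exact Or.inr fun t ht => h1 t (ht.trans hs)) q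
  have hkey : ∀ l ∈ K, ∀ s ≤ q₁, s ∈ InI U F i m u l → q₁ ∈ InI U F i m u l := by
    intro l hl s hs hsI
    rcases hD ⟨l, hl⟩ with h1 | h1
    · exact h1
    · exact absurd hsI (h1 s hs)
  by_cases hK' : ∃ l ∈ K, q₁ ∈ InI U F i m u l
  · obtain ⟨l₀, hl₀, p₀, hp₀, hp₀m, hp₀u, -⟩ := hK'
    let v : PF A L := liftF q₁ p₀
    let K' : Set L := {l | l ∈ K ∧ q₁ ∈ InI U F i m u l}
    have hv : ∀ l : K', U v (ColF F i l.1) := by
      rintro ⟨l, hl, pl, hpl, hplm, hplu, hplU⟩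
      have h1 : v = liftF q₁ pl := by
        apply Subtype.ext
        change lift q₁.1 p₀.1 = lift q₁.1 pl.1
        have h2 : ({a | (a < p₀.1.len ∧ a ∈ p₀.1.x) ∨ (p₀.1.len ≤ a ∧ a ∈ q₁.1.x)} : Set A) =
            {a | (a < pl.1.len ∧ a ∈ pl.1.x) ∨ (pl.1.len ≤ a ∧ a ∈ q₁.1.x)} := by
          ext a
          simp only [mem_ofPred_eq]
          rw [hp₀m, hplm]
          constructor
          · rintro (⟨h3, h4⟩ | h3)
            · exact Or.inl ⟨h3, (hplu a h3).2 ((hp₀u a h3).1 h4)⟩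
            · exact Or.inr h3
          · rintro (⟨h3, h4⟩ | h3)
            · exact Or.inl ⟨h3, (hp₀u a h3).2 ((hplu a h3).1 h4)⟩
            · exact Or.inr h3
        unfold lift
        rw [h2]
      rw [h1]
      exact hU.mono _ _ _ hplU (liftF_le (p := toF pl) hpl)
    have hcard : #K' < #A :=
      lt_of_le_of_lt (mk_le_mk_of_subset fun l hl => hl.1) hK
    have h2 := hU.inter v K' (fun l => ColF F i l.1) hcard hv
    obtain ⟨r, hr, b, hb, hrb⟩ := U_unb h hU h2 c
    have hrv : toC r ≤ q₁ := (toC_mono hr).trans (toC_liftF_le hp₀)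
    refine ⟨toC r, hrv.trans hq₁, b, hb, ?_⟩
    intro l hl s hs hsI
    have h3 := hkey l hl s (hs.trans hrv) hsI
    refine Col_mono hs (Col_of_FrIn ?_)
    intro t ht
    obtain ⟨t', ht', e, he, hte⟩ := hrb t ht
    obtain ⟨t'', ht'', e', he', hte'⟩ := (he ⟨l, hl, h3⟩) t' hte
    exact ⟨t'', ht''.trans ht', e', he', hte'⟩
  · obtain ⟨b, hb⟩ := h.bddA {c} (by
      rw [mk_singleton]
      exact lt_trans one_lt_aleph0 h.unc)
    refine ⟨q₁, hq₁, b, hb c rfl, ?_⟩
    intro l hl s hs hsI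
    exact absurd ⟨l, hl, hkey l hl s hs hsI⟩ hK'

end Pool.Agent.Helper3.SP
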